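import Pool.Agent.Helper85.IA.St

/-!
# Project IA, module LO2 of helper85: the statistic `F2` depends weakly on each coordinate
-/

set_option autoImplicit false

namespace Pool.Agent.Helper19.IA85

open Finset Pool.Agent.Helper93.IA Pool.Agent.Helper85.IA

section

variable {α β γ : Type} [Fintype α] [Fintype β] [Fintype γ] [DecidableEq α] [DecidableEq β]
  [DecidableEq γ]

private lemma lo2_upd (σ : α × β → Option γ) (p q : α × β) (c0 c' : γ) (h : c' ≠ c0) :
    Function.update σ p (some c0) q = some c' ↔ Function.update σ p none q = some c' := by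
  by_cases hq : q = p
  · subst hq
    simp only [Function.update_self, Option.some.injEq]
    exact ⟨fun e => absurd e.symm h, fun e => absurd e (by simp)⟩
  · rw [Function.update_of_ne hq, Function.update_of_ne hq]

private lemma lo2_other (σ : α × β → Option γ) (p : α × β) (c0 c' : γ) (h : c' ≠ c0) (a : α)
    (b : β) :
    Us (Function.update σ p (some c0)) a b c' ↔ Us (Function.update σ p none) a b c' := by
  have h1 := fun q => lo2_upd σ p q c0 c' h
  unfold Us
  simp only [ne_eq, h1]

private lemma lo2_far (σ : α × β → Option γ) (a0 : α) (b0 : β) (v : Option γ) (c' : γ) (a : α)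
    (b : β) (ha : a ≠ a0) (hb : b ≠ b0) :
    Us (Function.update σ (a0, b0) v) a b c' ↔ Us (Function.update σ (a0, b0) none) a b c' := by
  have h1 : ∀ b', Function.update σ (a0, b0) v (a, b')
      = Function.update σ (a0, b0) none (a, b') := by
    intro b'
    have hn : (a, b') ≠ (a0, b0) := fun e => ha (Prod.ext_iff.1 e).1
    rw [Function.update_of_ne hn, Function.update_of_ne hn]
  have h2 : ∀ a', Function.update σ (a0, b0) v (a', b)
      = Function.update σ (a0, b0) none (a', b) := by
    intro a'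
    have hn : (a', b) ≠ (a0, b0) := fun e => hb (Prod.ext_iff.1 e).2
    rw [Function.update_of_ne hn, Function.update_of_ne hn]
  unfold Us
  simp only [h1, h2]

/-- In the column of the changed coordinate, outside of it, a used triple needs `b = b0`. -/
private lemma lo2_near (σ : α × β → Option γ) (a0 : α) (b0 : β) (c0 : γ) (b : β) (hb : b ≠ b0) :
    ¬ Us (Function.update σ (a0, b0) (some c0)) a0 b c0 := by
  intro h
  exact h.2.1 b0 (Ne.symm hb) (Function.update_self _ _ _)

private lemma lo2_k01 (hK : StKUB) (σ : α × β → Option γ) :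
    (∀ a b, 0 ≤ kA σ a b ∧ kA σ a b ≤ 1) ∧ (∀ b c, 0 ≤ kB σ b c ∧ kB σ b c ≤ 1) ∧
      ∀ c a, 0 ≤ kC σ c a ∧ kC σ c a ≤ 1 := by
  obtain ⟨h1, h2, h3⟩ := hK α β γ σ
  refine ⟨fun a b => ?_, fun b c => ?_, fun c a => ?_⟩
  · rw [h1 a b]; split_ifs <;> norm_num
  · rw [h2 b c]; split_ifs <;> norm_num
  · rw [h3 c a]; split_ifs <;> norm_num

/-- The product of the two factors is in `[0, 1]`. -/
private lemma lo2_fac (s t k l : ℝ) (hs0 : 0 ≤ s) (hs1 : s ≤ 1) (ht0 : 0 ≤ t) (ht1 : t ≤ 1)
    (hk0 : 0 ≤ k) (hk1 : k ≤ 1) (hl0 : 0 ≤ l) (hl1 : l ≤ 1) :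
    0 ≤ (1 - s * k) * (1 - t * l) ∧ (1 - s * k) * (1 - t * l) ≤ 1 := by
  have h1 : 0 ≤ s * k := mul_nonneg hs0 hk0
  have h2 : s * k ≤ 1 := mul_le_one₀ hs1 hk0 hk1
  have h3 : 0 ≤ t * l := mul_nonneg ht0 hl0
  have h4 : t * l ≤ 1 := mul_le_one₀ ht1 hl0 hl1
  constructor
  · exact mul_nonneg (by linarith) (by linarith)
  · exact mul_le_one₀ (by linarith) (by linarith) (by linarith)

/-- For a column `b ≠ b0` in which `(a0, b, c0)` is not used after the removal, nothing changes. -/
private lemma lo2_same (σ : α × β → Option γ) (a0 : α) (b0 : β) (c0 : γ) (a : α) (b : β) (c : γ)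
    (hb : b ≠ b0) (hu : ¬ Us (Function.update σ (a0, b0) none) a0 b c0) :
    kA (Function.update σ (a0, b0) (some c0)) a b = kA (Function.update σ (a0, b0) none) a b ∧
      kB (Function.update σ (a0, b0) (some c0)) b c
        = kB (Function.update σ (a0, b0) none) b c := by
  have key : ∀ a' c', us (Function.update σ (a0, b0) (some c0)) a' b c'
      = us (Function.update σ (a0, b0) none) a' b c' := by
    intro a' c'
    have hiff : Us (Function.update σ (a0, b0) (some c0)) a' b c'
        ↔ Us (Function.update σ (a0, b0) none) a' b c' := by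
      by_cases hc : c' = c0
      · subst hc
        by_cases ha : a' = a0
        · subst ha
          exact ⟨fun h => absurd h (lo2_near σ a' b0 c' b hb), fun h => absurd h hu⟩
        · exact lo2_far σ a0 b0 (some c') c' a' b ha hb
      · exact lo2_other σ (a0, b0) c0 c' hc a' b
    unfold us
    simp only [hiff]
  unfold kA kB
  exact ⟨Finset.sum_congr rfl fun c' _ => key a c', Finset.sum_congr rfl fun a' _ => key a' c⟩

private lemma lo2_bound (hK : StKUB) (z : β → ℝ) (s t : ℝ) (c : γ) (a : α)
    (hz : ∀ b, |z b| ≤ 1) (hs0 : 0 ≤ s) (hs1 : s ≤ 1) (ht0 : 0 ≤ t) (ht1 : t ≤ 1)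
    (σ : α × β → Option γ) (a0 : α) (b0 : β) (c0 : γ) :
    |F2 (Function.update σ (a0, b0) (some c0)) z s t c a
      - F2 (Function.update σ (a0, b0) none) z s t c a| ≤ 2 := by
  set σ' := Function.update σ (a0, b0) (some c0) with hσ'
  set σ'' := Function.update σ (a0, b0) none with hσ''
  obtain ⟨hA', hB', -⟩ := lo2_k01 hK σ'
  obtain ⟨hA'', hB'', hC''⟩ := lo2_k01 hK σ''
  have hterm : ∀ b, |z b * ((1 - s * kA σ' a b) * (1 - t * kB σ' b c))
      - z b * ((1 - s * kA σ'' a b) * (1 - t * kB σ'' b c))|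
      ≤ (if b = b0 then 1 else 0) + us σ'' a0 b c0 := by
    intro b
    have hu0 : 0 ≤ us σ'' a0 b c0 := by unfold us; split_ifs <;> norm_num
    have hone : |z b * ((1 - s * kA σ' a b) * (1 - t * kB σ' b c))
        - z b * ((1 - s * kA σ'' a b) * (1 - t * kB σ'' b c))| ≤ 1 := by
      obtain ⟨p0, p1⟩ := lo2_fac s t (kA σ' a b) (kB σ' b c) hs0 hs1 ht0 ht1 (hA' a b).1
        (hA' a b).2 (hB' b c).1 (hB' b c).2
      obtain ⟨q0, q1⟩ := lo2_fac s t (kA σ'' a b) (kB σ'' b c) hs0 hs1 ht0 ht1 (hA'' a b).1
        (hA'' a b).2 (hB'' b c).1 (hB'' b c).2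
      rw [← mul_sub, abs_mul]
      refine mul_le_one₀ (hz b) (abs_nonneg _) ?_
      rw [abs_le]
      constructor <;> linarith
    by_cases hb : b = b0
    · rw [if_pos hb]
      linarith
    · by_cases hu : Us σ'' a0 b c0
      · have : us σ'' a0 b c0 = 1 := by unfold us; rw [if_pos hu]
        rw [if_neg hb, this]
        linarith
      · obtain ⟨e1, e2⟩ := lo2_same σ a0 b0 c0 a b c hb hu
        rw [← hσ', ← hσ''] at e1 e2
        rw [e1, e2, sub_self, abs_zero, if_neg hb]
        linarith
  have hsum : ∑ b, ((if b = b0 then (1 : ℝ) else 0) + us σ'' a0 b c0) ≤ 2 := by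
    rw [Finset.sum_add_distrib, Finset.sum_ite_eq' univ b0 (fun _ => (1 : ℝ)),
      if_pos (Finset.mem_univ b0)]
    have h := (hC'' c0 a0).2
    unfold kC at h
    linarith
  unfold F2
  rw [← Finset.sum_sub_distrib]
  exact (Finset.abs_sum_le_sum_abs _ _).trans
    ((Finset.sum_le_sum fun b _ => hterm b).trans hsum)

private lemma lo2_eq (z : β → ℝ) (s t : ℝ) (c : γ) (a : α) (σ : α × β → Option γ) (a0 : α)
    (b0 : β) (c0 : γ) (ha : a0 ≠ a) (hr : some c0 ≠ σ (a, b0)) (hc : c0 ≠ c) :
    F2 (Function.update σ (a0, b0) (some c0)) z s t c a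
      = F2 (Function.update σ (a0, b0) none) z s t c a := by
  have hn : (a, b0) ≠ (a0, b0) := fun e => ha (Prod.ext_iff.1 e).1.symm
  have hB : ∀ b, kB (Function.update σ (a0, b0) (some c0)) b c
      = kB (Function.update σ (a0, b0) none) b c := by
    intro b
    unfold kB us
    refine Finset.sum_congr rfl fun a' _ => ?_
    simp only [lo2_other σ (a0, b0) c0 c (Ne.symm hc) a' b]
  have hA : ∀ b, kA (Function.update σ (a0, b0) (some c0)) a b
      = kA (Function.update σ (a0, b0) none) a b := by
    intro b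
    unfold kA us
    refine Finset.sum_congr rfl fun c' _ => ?_
    have hiff : Us (Function.update σ (a0, b0) (some c0)) a b c'
        ↔ Us (Function.update σ (a0, b0) none) a b c' := by
      by_cases hc' : c' = c0
      · subst hc'
        by_cases hb : b = b0
        · subst hb
          constructor
          · intro h
            have h1 := h.1
            rw [Function.update_of_ne hn] at h1
            exact absurd h1.symm hr
          · intro h
            have h1 := h.1
            rw [Function.update_of_ne hn] at h1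
            exact absurd h1.symm hr
        · exact lo2_far σ a0 b0 (some c') c' a b (Ne.symm ha) hb
      · exact lo2_other σ (a0, b0) c0 c' hc' a b
    simp only [hiff]
  unfold F2
  exact Finset.sum_congr rfl fun b _ => by rw [hA b, hB b]

end

/-- The statistic `F2` depends weakly on each coordinate. -/
theorem hLO2 : StKUB → StLO2 := by
  intro hK α β γ _ _ _ _ _ _ z s t c a hz hs0 hs1 ht0 ht1
  refine ⟨?_, ?_⟩
  · rintro σ ⟨a0, b0⟩ v
    cases v with
    | none => simp
    | some c0 => exact lo2_bound hK z s t c a hz hs0 hs1 ht0 ht1 σ a0 b0 c0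
  · rintro σ ⟨a0, b0⟩ hp
    have ha : a0 ≠ a := by
      intro h
      exact hp (Finset.mem_filter.2 ⟨Finset.mem_univ _, h⟩)
    refine ⟨σ (a, b0), some c, fun v hv hv' => ?_⟩
    cases v with
    | none => rfl
    | some c0 =>
      exact lo2_eq z s t c a σ a0 b0 c0 ha hv (fun h => hv' (by rw [h]))

end Pool.Agent.Helper19.IA85
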